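import Pool.Agent.Helper61.QE.St5

/-!
# Project QD, part E, module EFI: independence of the fundamental domain
-/

open MeasureTheory Set Filter Topology Complex
open scoped ContDiff ComplexConjugate ENNReal

namespace Pool.Agent.Helper11.QE

open Pool.Agent.Helper68.QC Pool.Agent.Helper61.QE

/-- The inner integral of the energy. -/
noncomputable def KK (Ω : Set ℂ) (a : ℂ) : ℝ≥0∞ := ∫⁻ ξ in Ω, ENNReal.ofReal (‖ξ - a‖⁻¹ ^ 4)

theorem meas_KK (Ω : Set ℂ) : Measurable (KK Ω) := by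
  have h1 : Measurable (fun x : ℂ × ℂ => x.2 - x.1) := measurable_snd.sub measurable_fst
  have h2 : Measurable (fun x : ℂ × ℂ => ENNReal.ofReal (‖x.2 - x.1‖⁻¹ ^ 4)) :=
    ENNReal.measurable_ofReal.comp ((h1.norm.inv).pow_const 4)
  exact h2.lintegral_prod_right'

theorem meas_den (B : SL) : Measurable (den B) := by
  unfold den
  exact (measurable_const.mul measurable_id).add measurable_const

theorem cont_den (B : SL) : Continuous (den B) := by
  unfold den
  fun_prop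

theorem meas_mob (B : SL) : Measurable (mob B) := by
  unfold mob
  exact ((measurable_const.mul measurable_id).add measurable_const).div (meas_den B)

theorem null_den (B : SL) : (volume : Measure ℂ) {ξ | den B ξ = 0} = 0 := by
  refine Set.Subsingleton.measure_zero ?_ _
  intro x hx y hy
  simp only [mem_setOf_eq, den] at hx hy
  have h1 : B 1 0 * (x - y) = 0 := by linear_combination hx - hy
  rcases mul_eq_zero.1 h1 with h2 | h2
  · exfalso
    have hd := B.det_coe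
    rw [Matrix.det_fin_two] at hd
    rw [h2] at hx hd
    have h3 : B 1 1 = 0 := by simpa using hx
    rw [h3] at hd
    simp at hd
  · exact sub_eq_zero.1 h2

theorem real_id (x p q : ℝ) (hp : 0 < p) (hq : 0 < q) :
    (x / (p * q))⁻¹ ^ 4 * ((p ^ 2)⁻¹) ^ 2 * q⁻¹ ^ 4 = x⁻¹ ^ 4 := by
  rcases eq_or_ne x 0 with h | h
  · subst h
    simp
  · field_simp

theorem KK_inv (hSUB : StSUB) (hCVH : StCVH) {Γ : Type} [Group Γ] {s : Γ →* SL}
    {G : ℂ ≃ₜ ℂ} {R : Γ →* SL} (hs : Fu s) (hR : ∀ γ, Intw (s γ) (R γ) G) (γ : Γ) (a : ℂ)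
    (ha : den (R γ) a ≠ 0) :
    KK (G '' Dx) (mob (R γ) a) * ENNReal.ofReal (‖den (R γ) a‖⁻¹ ^ 4) = KK (G '' Dx) a := by
  obtain ⟨-, sDer, sDif, -, sNrm, -, -, -, -, sInv⟩ := hSUB
  have hmap : ∀ γ, ∀ ξ ∈ G '' Dx, den (R γ) ξ ≠ 0 → mob (R γ) ξ ∈ G '' Dx := by
    rintro γ _ ⟨z, hz, rfl⟩ hd
    have hd' : den (s γ) z ≠ 0 := fun h => hd (((hR γ).1 z).1 h)
    refine ⟨mob (s γ) z, ?_, (hR γ).2.1 z hd'⟩
    have h1 := sNrm (s γ) (hs.su γ) z hd'
    have h2 : 1 < ‖z‖ := hz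
    show 1 < ‖mob (s γ) z‖
    by_contra hc
    have hc' : ‖mob (s γ) z‖ ≤ 1 := not_lt.1 hc
    have h3 : 0 ≤ (1 - ‖mob (s γ) z‖ ^ 2) * ‖den (s γ) z‖ ^ 2 := by
      refine mul_nonneg ?_ (by positivity)
      nlinarith [norm_nonneg (mob (s γ) z)]
    nlinarith
  set B : SL := R γ with hB
  have hBi : R γ⁻¹ = B⁻¹ := by rw [hB, map_inv]
  have hΩ : IsOpen (G '' Dx) := G.isOpenMap _ (isOpen_lt continuous_const continuous_norm)
  set E : Set ℂ := G '' Dx \ {ξ | den B ξ = 0} with hE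
  have hEm : MeasurableSet E :=
    hΩ.measurableSet.diff (isClosed_eq (cont_den B) continuous_const).measurableSet
  have him : mob B '' E = G '' Dx \ {ξ | den B⁻¹ ξ = 0} := by
    ext ξ
    constructor
    · rintro ⟨η, ⟨hη, hη'⟩, rfl⟩
      refine ⟨hmap γ η hη hη', ?_⟩
      intro h0
      have h1 := (sInv B η hη').2
      rw [mem_setOf_eq] at h0
      rw [h0] at h1
      simp at h1
    · rintro ⟨hξ, hξ'⟩
      have h1 := sInv B⁻¹ ξ hξ'
      rw [inv_inv] at h1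
      refine ⟨mob B⁻¹ ξ, ⟨?_, ?_⟩, h1.1⟩
      · have := hmap γ⁻¹ ξ hξ (by rw [hBi]; exact hξ')
        rwa [hBi] at this
      · intro h0
        rw [mem_setOf_eq] at h0
        have h2 := h1.2
        rw [h0] at h2
        simp at h2
  have hV : IsOpen {ξ : ℂ | den B ξ ≠ 0} := isOpen_ne_fun (cont_den B) continuous_const
  have hEV : E ⊆ {ξ : ℂ | den B ξ ≠ 0} := fun ξ hξ => hξ.2
  have hinj : InjOn (mob B) E := by
    intro x hx y hy hxy
    have h1 := (sInv B x (hEV hx)).1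
    have h2 := (sInv B y (hEV hy)).1
    rw [← h1, ← h2, hxy]
  have hdiff : DifferentiableOn ℂ (mob B) {ξ : ℂ | den B ξ ≠ 0} := fun ξ hξ =>
    (sDer B ξ hξ).differentiableAt.differentiableWithinAt
  have hc := hCVH _ E (mob B) hV hdiff hEV hEm hinj
    (fun ξ => ENNReal.ofReal (‖ξ - mob B a‖⁻¹ ^ 4))
  have r1 : KK (G '' Dx) (mob B a) = ∫⁻ ξ in mob B '' E, ENNReal.ofReal (‖ξ - mob B a‖⁻¹ ^ 4) := by
    unfold KK
    rw [him]
    exact (setLIntegral_congr (diff_null_ae_eq_self (null_den B⁻¹))).symm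
  have r2 : KK (G '' Dx) a = ∫⁻ ξ in E, ENNReal.ofReal (‖ξ - a‖⁻¹ ^ 4) := by
    unfold KK
    exact (setLIntegral_congr (diff_null_ae_eq_self (null_den B))).symm
  rw [r1, hc, r2, ← lintegral_mul_const' _ _ ENNReal.ofReal_ne_top]
  refine setLIntegral_congr_fun hEm fun η hη => ?_
  have hdη : den B η ≠ 0 := hEV hη
  show ENNReal.ofReal (‖mob B η - mob B a‖⁻¹ ^ 4) * ENNReal.ofReal (‖deriv (mob B) η‖ ^ 2) *
    ENNReal.ofReal (‖den B a‖⁻¹ ^ 4) = ENNReal.ofReal (‖η - a‖⁻¹ ^ 4)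
  rw [(sDer B η hdη).deriv, sDif B η a hdη ha, ← ENNReal.ofReal_mul (by positivity),
    ← ENNReal.ofReal_mul (by positivity)]
  congr 1
  rw [norm_div, norm_mul, norm_inv, norm_pow]
  exact real_id _ _ _ (norm_pos_iff.2 hdη) (norm_pos_iff.2 ha)

/-- EFI -/
theorem pEFI (hSUB : StSUB) (hFUX : StFUX) (hIND : StIND) (hCVH : StCVH) : StEFI := by
  intro Γ _ s F F' μ R hs hF hF' hR
  obtain ⟨hcnt, -⟩ := hFUX Γ s hs
  obtain ⟨h1, -, h3⟩ := hIND Γ s F (nq μ) R hs hF hR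
  have hinv := fun γ a ha => KK_inv hSUB hCVH (G := nq μ) hs hR γ a ha
  show ∫⁻ a in nq μ '' F, KK (nq μ '' Dx) a = ∫⁻ a in nq μ '' F', KK (nq μ '' Dx) a
  obtain ⟨sCmp, -, -, sDen, -, -, -, -, -, -⟩ := hSUB
  have hFD : ∀ z ∈ F, z ∈ D := by
    obtain ⟨r, hr, hz⟩ := hF.cpt
    intro z hzF
    have := hz z hzF
    simp only [Metric.mem_ball, dist_zero_right]
    linarith
  have hFD' : ∀ z ∈ F', z ∈ D := by
    obtain ⟨r, hr, hz⟩ := hF'.cpt
    intro z hzF
    have := hz z hzF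
    simp only [Metric.mem_ball, dist_zero_right]
    linarith
  have hGF : MeasurableSet (nq μ '' F) :=
    ((nq μ).measurableEmbedding.measurableSet_image).2 hF.meas
  have hGF' : MeasurableSet (nq μ '' F') :=
    ((nq μ).measurableEmbedding.measurableSet_image).2 hF'.meas
  have hK := meas_KK (nq μ '' Dx)
  have hsub' : nq μ '' F' ⊆ nq μ '' D := image_mono hFD'
  have e1 := h3 ((nq μ '' F').indicator (KK (nq μ '' Dx))) (hK.indicator hGF')
  rw [setLIntegral_indicator hGF', inter_eq_left.2 hsub'] at e1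
  rw [e1, ← lintegral_tsum fun γ => ?_]
  · refine setLIntegral_congr_fun hGF fun ξ hξ => ?_
    obtain ⟨z, hz, rfl⟩ := hξ
    have hzD := hFD z hz
    have hzn : ‖z‖ ≤ 1 := by
      simp only [Metric.mem_ball, dist_zero_right] at hzD
      exact hzD.le
    obtain ⟨γ0, hγ0⟩ := hF'.cov z hzD
    have hden : ∀ γ, den (s γ) z ≠ 0 := fun γ => sDen (s γ) (hs.su γ) z hzn
    have hmob : ∀ γ, mob (R γ) (nq μ z) = nq μ (mob (s γ) z) := fun γ =>
      ((hR γ).2.1 z (hden γ)).symm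
    show KK (nq μ '' Dx) (nq μ z) = ∑' γ : Γ, (nq μ '' F').indicator (KK (nq μ '' Dx))
      (mob (R γ) (nq μ z)) * ENNReal.ofReal (‖den (R γ) (nq μ z)‖⁻¹ ^ 4)
    rw [tsum_eq_single γ0]
    · have hmem : mob (R γ0) (nq μ z) ∈ nq μ '' F' := by
        rw [hmob]
        exact ⟨_, hγ0, rfl⟩
      rw [indicator_of_mem hmem]
      exact (hinv γ0 (nq μ z) (h1 γ0 _ ⟨z, hzD, rfl⟩).1).symm
    · intro γ hγ
      have hnot : mob (R γ) (nq μ z) ∉ nq μ '' F' := by
        rw [hmob]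
        rintro ⟨w, hw, hwe⟩
        have hwe' : w = mob (s γ) z := (nq μ).injective hwe
        rw [hwe'] at hw
        apply hγ
        have h5 := (sCmp (s (γ * γ0⁻¹)) (s γ0) z (hden γ0)).2
        rw [← map_mul, inv_mul_cancel_right] at h5
        rw [h5] at hw
        have h6 := hF'.uni _ hγ0 _ hw
        exact mul_inv_eq_one.1 h6
      rw [indicator_of_notMem hnot, zero_mul]
  · exact (((hK.indicator hGF').comp (meas_mob (R γ))).mul
      (ENNReal.measurable_ofReal.comp (((meas_den (R γ)).norm.inv).pow_const 4))).aemeasurable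

end Pool.Agent.Helper11.QE
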