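import Pool.Agent.Helper61.QE.St3

open MeasureTheory Set Filter Topology Complex
open scoped ContDiff ComplexConjugate ENNReal

namespace Pool.Agent.Helper11.QE

open Pool.Agent.Helper68.QC Pool.Agent.Helper61.QE

private theorem det1 (A : SL) : A 0 0 * A 1 1 - A 0 1 * A 1 0 = 1 := by
  have := A.2
  rwa [Matrix.det_fin_two] at this

private theorem den_cont (A : SL) : Continuous (den A) := by
  unfold den; fun_prop

/-- the denominator of the image vanishes -/
private theorem aux1 {A B : SL} {w : ℂ ≃ₜ ℂ}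
    (h : ∀ ξ, den A ξ ≠ 0 → den B (w ξ) ≠ 0 ∧ w (mob A ξ) = mob B (w ξ)) {z : ℂ}
    (hz : den A z = 0) : den B (w z) = 0 := by
  by_contra hB
  have hdet := det1 A
  have hA : A 1 0 ≠ 0 := by
    intro h0
    have h1 : A 1 1 = 0 := by
      unfold den at hz
      rw [h0] at hz
      simpa using hz
    rw [h0, h1] at hdet
    simp at hdet
  have hnum : A 0 0 * z + A 0 1 ≠ 0 := by
    intro h0
    have hz' : A 1 0 * z + A 1 1 = 0 := hz
    have : (1 : ℂ) = 0 := by
      linear_combination (-1 : ℂ) * hdet + A 0 0 * hz' - A 1 0 * h0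
    exact one_ne_zero this
  have hne : ∀ᶠ x in 𝓝[≠] z, den A x ≠ 0 := by
    filter_upwards [self_mem_nhdsWithin] with x hx
    intro h0
    apply hx
    have h1 : A 1 0 * (x - z) = 0 := by
      unfold den at h0 hz
      linear_combination h0 - hz
    rcases mul_eq_zero.mp h1 with h2 | h2
    · exact absurd h2 hA
    · exact sub_eq_zero.mp h2
  -- the limit of `mob A`
  have hmB : ContinuousAt (mob B) (w z) := by
    unfold mob
    exact ContinuousAt.div (by fun_prop) (den_cont B).continuousAt hB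
  have h1 : Tendsto (fun x => w.symm (mob B (w x))) (𝓝[≠] z) (𝓝 (w.symm (mob B (w z)))) := by
    have h2 : Tendsto (fun x => mob B (w x)) (𝓝 z) (𝓝 (mob B (w z))) :=
      hmB.tendsto.comp (w.continuous.tendsto z)
    exact ((w.symm.continuous.tendsto _).comp h2).mono_left nhdsWithin_le_nhds
  have h2 : Tendsto (mob A) (𝓝[≠] z) (𝓝 (w.symm (mob B (w z)))) := by
    refine h1.congr' ?_
    filter_upwards [hne] with x hx
    rw [← (h x hx).2, w.symm_apply_apply]
  have h3 : Tendsto (den A) (𝓝[≠] z) (𝓝 0) := by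
    have := ((den_cont A).tendsto z).mono_left (nhdsWithin_le_nhds (s := {z}ᶜ))
    rwa [hz] at this
  have h4 : Tendsto (fun x => mob A x * den A x) (𝓝[≠] z) (𝓝 0) := by
    have := h2.mul h3
    rwa [mul_zero] at this
  have h5 : Tendsto (fun x => A 0 0 * x + A 0 1) (𝓝[≠] z) (𝓝 (A 0 0 * z + A 0 1)) := by
    have hc : Continuous fun x : ℂ => A 0 0 * x + A 0 1 := by fun_prop
    exact (hc.tendsto z).mono_left nhdsWithin_le_nhds
  have h6 : Tendsto (fun x => A 0 0 * x + A 0 1) (𝓝[≠] z) (𝓝 0) := by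
    refine h4.congr' ?_
    filter_upwards [hne] with x hx
    unfold mob
    rw [div_mul_cancel₀ _ hx]
  exact hnum (tendsto_nhds_unique h5 h6)

/-- behaviour of a Moebius map at infinity -/
private theorem mob_inf {A : SL} (hA : A 1 0 ≠ 0) :
    Tendsto (mob A) (Bornology.cobounded ℂ) (𝓝 (A 0 0 / A 1 0)) ∧
      ∀ᶠ z in Bornology.cobounded ℂ, den A z ≠ 0 := by
  have hdet := det1 A
  have h0 : Tendsto (fun z : ℂ => ‖z‖) (Bornology.cobounded ℂ) atTop := tendsto_norm_cobounded_atTop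
  have h1 : Tendsto (den A) (Bornology.cobounded ℂ) (Bornology.cobounded ℂ) := by
    rw [← tendsto_norm_atTop_iff_cobounded]
    have h2 : Tendsto (fun z : ℂ => ‖A 1 0‖ * ‖z‖ - ‖A 1 1‖) (Bornology.cobounded ℂ) atTop :=
      tendsto_atTop_add_const_right _ _ (h0.const_mul_atTop (norm_pos_iff.mpr hA))
    refine tendsto_atTop_mono (fun z => ?_) h2
    unfold den
    have h3 := norm_sub_le (A 1 0 * z + A 1 1) (A 1 1)
    rw [add_sub_cancel_right, norm_mul] at h3
    linarith
  have hne : ∀ᶠ z in Bornology.cobounded ℂ, den A z ≠ 0 := by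
    have h2 : Tendsto (fun z => ‖den A z‖) (Bornology.cobounded ℂ) atTop := h0.comp h1
    filter_upwards [h2.eventually (eventually_gt_atTop 0)] with z hz
    exact norm_pos_iff.mp hz
  refine ⟨?_, hne⟩
  have h2 : Tendsto (fun z => A 0 0 / A 1 0 - (A 1 0)⁻¹ * (den A z)⁻¹) (Bornology.cobounded ℂ)
      (𝓝 (A 0 0 / A 1 0 - (A 1 0)⁻¹ * 0)) :=
    tendsto_const_nhds.sub (tendsto_const_nhds.mul (tendsto_inv₀_cobounded.comp h1))
  rw [mul_zero, sub_zero] at h2
  refine h2.congr' ?_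
  filter_upwards [hne] with z hz
  unfold mob
  have hz' : A 1 0 * z + A 1 1 ≠ 0 := hz
  rw [eq_div_iff hz]
  unfold den
  field_simp
  linear_combination hdet

private theorem intw_of {A B : SL} {w : ℂ ≃ₜ ℂ}
    (h : ∀ ξ, den A ξ ≠ 0 → den B (w ξ) ≠ 0 ∧ w (mob A ξ) = mob B (w ξ)) (hA : A 1 0 ≠ 0) :
    Intw A B w := by
  have hB : B 1 0 ≠ 0 := by
    intro h0
    have hz : den A (-(A 1 1) / A 1 0) = 0 := by
      unfold den
      rw [mul_div_cancel₀ _ hA]
      ring
    have h1 := aux1 h hz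
    unfold den at h1
    have hdet := det1 B
    rw [h0, zero_mul, zero_add] at h1
    rw [h0, h1] at hdet
    simp at hdet
  refine ⟨fun z => ⟨fun hz => aux1 h hz, fun hz => ?_⟩, fun z hz => (h z hz).2,
    ⟨fun h0 => absurd h0 hA, fun h0 => absurd h0 hB⟩, fun _ => ?_⟩
  · by_contra hne
    exact (h z hne).1 hz
  · obtain ⟨tA, eA⟩ := mob_inf hA
    obtain ⟨tB, -⟩ := mob_inf hB
    have hw : Tendsto w (Bornology.cobounded ℂ) (Bornology.cobounded ℂ) := by
      rw [Metric.cobounded_eq_cocompact]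
      exact w.isClosedEmbedding.tendsto_cocompact
    have h1 : Tendsto (fun z => w (mob A z)) (Bornology.cobounded ℂ) (𝓝 (w (A 0 0 / A 1 0))) :=
      (w.continuous.tendsto _).comp tA
    have h2 : Tendsto (fun z => mob B (w z)) (Bornology.cobounded ℂ) (𝓝 (B 0 0 / B 1 0)) :=
      tB.comp hw
    refine tendsto_nhds_unique (h1.congr' ?_) h2
    filter_upwards [eA] with z hz
    exact (h z hz).2

theorem pEQI (hEX : StEX) (_hSUB : StSUB) (hPGH : StPGH) (_hINT : StINT) (hEQP : StEQP) :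
    StEQI := by
  intro Γ _ s F h t0 G N R R' U P ν Ri Ri' hFu ht hSq hLm
  obtain ⟨hA, hB, hC, -⟩ := hEQP Γ s F h t0 G N R R' U P ν Ri Ri' hFu ht hSq hLm
  have hI : ∀ γ, Intw (Ri γ) (Ri' γ) (nq ν) := by
    intro γ
    by_cases hγ : γ = 1
    · subst hγ
      rw [map_one, map_one]
      have e1 : ∀ z, den (1 : SL) z = 1 := by
        intro z; simp [den]
      have e2 : ∀ z, mob (1 : SL) z = z := by
        intro z; simp [mob, e1]
      refine ⟨fun z => by rw [e1, e1], fun z _ => by rw [e2, e2], Iff.rfl, fun h0 => ?_⟩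
      exfalso
      apply h0
      simp
    · exact intw_of (hB γ) (hC γ hγ).1
  refine ⟨hI, fun γ u hu => ?_⟩
  have hz : nq ν 0 = 0 := (hEX ‖t0‖ ht ν hLm.nbel).zero
  have hJ := (hPGH.1 (nq ν) hz).2.2 (Ri γ) (Ri' γ) (hI γ)
  obtain ⟨h1, h2, -, -⟩ := hJ
  obtain ⟨h3, h4⟩ := hA γ u hu
  refine ⟨fun h0 => h3 ((h1 _).mpr h0), ?_⟩
  rw [h4]
  exact h2 _ h3

end Pool.Agent.Helper11.QE
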