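import Pool.Agent.Helper61.QE.St4
import Pool.Agent.Helper54.QC.M_HAR
import Pool.Agent.Helper6.QC.M_MBB

/-!
# Project QD, part E, module PE1: superharmonicity of the energy
-/

open MeasureTheory Set Filter Topology Complex
open scoped ContDiff ComplexConjugate ENNReal

namespace Pool.Agent.Helper11.QE

open Pool.Agent.Helper68.QC Pool.Agent.Helper61.QE

theorem maj_congr {f g : ℂ → ℝ} (hf : Pool.Agent.Helper69.QC.Maj f)
    (h : ∀ z ∈ Metric.ball (0 : ℂ) 1, f z = g z) : Pool.Agent.Helper69.QC.Maj g := by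
  refine ⟨fun z hz => by rw [← h z hz]; exact hf.1 z hz, fun p hp => ?_⟩
  obtain ⟨G, hG, h1, h2⟩ := hf.2 p hp
  exact ⟨G, hG, fun z hz => by rw [← h z hz]; exact h1 z hz, by rw [← h p hp]; exact h2⟩

open Classical in
/-- The family of Grunsky kernels, cut off outside the bidisc. -/
noncomputable def UU (κ h : ℂ → ℂ) (t : ℂ) (x : ℂ × ℂ) : ℂ :=
  if x ∈ D ×ˢ D then dKern (ft κ h t) x.2 x.1 else 0

theorem UU_eq (κ h : ℂ → ℂ) (t ζ z : ℂ) (hζ : ζ ∈ D) (hz : z ∈ D) :
    UU κ h t (ζ, z) = dKern (ft κ h t) z ζ := by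
  have hx : (ζ, z) ∈ D ×ˢ D := ⟨hζ, hz⟩
  unfold UU
  rw [if_pos hx]

theorem key_prod (S : Set ℂ) (hSm : MeasurableSet S) (hSD : S ⊆ D) (W : ℂ × ℂ → ℂ)
    (hW : Measurable W) (V : ℂ → ℂ → ℂ) (hV : ∀ ζ ∈ D, ∀ z ∈ D, W (ζ, z) = V ζ z) :
    ∫⁻ x, ENNReal.ofReal (‖W x‖ ^ 2) ∂((volume.restrict S).prod (volume.restrict D)) =
      ∫⁻ ζ in S, ∫⁻ z in D, ENNReal.ofReal (‖V ζ z‖ ^ 2) := by
  have hm : Measurable fun x : ℂ × ℂ => ENNReal.ofReal (‖W x‖ ^ 2) :=
    ENNReal.measurable_ofReal.comp (hW.norm.pow_const 2)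
  rw [lintegral_prod _ hm.aemeasurable]
  refine setLIntegral_congr_fun hSm fun ζ hζ => ?_
  refine setLIntegral_congr_fun measurableSet_ball fun z hz => ?_
  show ENNReal.ofReal (‖W (ζ, z)‖ ^ 2) = ENNReal.ofReal (‖V ζ z‖ ^ 2)
  rw [hV ζ (hSD hζ) z hz]

/-- PE1 -/
theorem pPE1 (hEID : StEID) (hHOT : StHOT) (hAB1 : StAB1) (hAB2 : StAB2) (hRIE : StRIE) :
    StPE1 := by
  intro Γ _ s F h κ k hs hF hh hk hκ
  obtain ⟨⟨hSm, r', hr', hSr⟩, -⟩ := hRIE Γ s F h κ k hs hF hh hk hκ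
  obtain ⟨hfin, hid⟩ := hEID Γ s F h κ k hs hF hh hk hκ
  obtain ⟨hhol, hmeas⟩ := hHOT Γ s F h κ k hs hF hh hk hκ
  generalize nq (syY κ) '' F = S at hSm hSr hfin hid ⊢
  generalize (∫⁻ ζ in S, ENNReal.ofReal (Real.pi / (1 - ‖ζ‖ ^ 2) ^ 2)) = T at hfin hid ⊢
  have hSD : S ⊆ D := fun z hz => by
    simpa using (hSr z hz).trans_lt hr'
  have hUm : ∀ t ∈ D, Measurable (UU κ h t) := fun t ht =>
    Measurable.ite (measurableSet_ball.prod measurableSet_ball) (hmeas t ht) measurable_const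
  have hUh : ∀ x, DifferentiableOn ℂ (fun t => UU κ h t x) D := by
    intro x
    by_cases hx : x ∈ D ×ˢ D
    · have e : (fun t => UU κ h t x) = fun t => dKern (ft κ h t) x.2 x.1 := by
        funext t
        unfold UU
        rw [if_pos hx]
      rw [e]
      exact hhol x.2 hx.2 x.1 hx.1
    · have e : (fun t => UU κ h t x) = fun _ => (0 : ℂ) := by
        funext t
        unfold UU
        rw [if_neg hx]
      rw [e]
      exact differentiableOn_const 0
  have hv : ∀ t ∈ D, ∫⁻ x, ENNReal.ofReal (‖UU κ h t x‖ ^ 2)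
      ∂((volume.restrict S).prod (volume.restrict D)) =
      ∫⁻ ζ in S, ∫⁻ z in D, ENNReal.ofReal (‖dKern (ft κ h t) z ζ‖ ^ 2) := fun t ht =>
    key_prod S hSm hSD _ (hUm t ht) (fun ζ z => dKern (ft κ h t) z ζ)
      (fun ζ hζ z hz => UU_eq κ h t ζ z hζ hz)
  have hle : ∀ t ∈ D, ∫⁻ x, ENNReal.ofReal (‖UU κ h t x‖ ^ 2)
      ∂((volume.restrict S).prod (volume.restrict D)) ≤ T := by
    intro t ht
    rw [hv t ht, ← hid t ht]
    exact le_add_self
  have hEle : ∀ t ∈ D, En F (muT κ h t) ≤ T := fun t ht => by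
    rw [← hid t ht]
    exact le_self_add
  have hEt : ∀ t ∈ D, En F (muT κ h t) ≠ ⊤ := fun t ht => ne_top_of_le_ne_top hfin (hEle t ht)
  have hTA : ENNReal.ofReal T.toReal = T := ENNReal.ofReal_toReal hfin
  have hint : ∀ t ∈ D, ∫ x, ‖UU κ h t x‖ ^ 2 ∂((volume.restrict S).prod (volume.restrict D)) =
      (∫⁻ x, ENNReal.ofReal (‖UU κ h t x‖ ^ 2)
        ∂((volume.restrict S).prod (volume.restrict D))).toReal := fun t ht =>
    integral_eq_lintegral_of_nonneg_ae (ae_of_all _ fun x => by positivity)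
      ((hUm t ht).norm.pow_const 2).aestronglyMeasurable
  have hE : ∀ t ∈ D, T.toReal - ∫ x, ‖UU κ h t x‖ ^ 2
      ∂((volume.restrict S).prod (volume.restrict D)) = Et F κ h t := by
    intro t ht
    have h1 := hid t ht
    rw [← hv t ht] at h1
    have h2 := ne_top_of_le_ne_top hfin (hle t ht)
    have h3 := congrArg ENNReal.toReal h1
    rw [ENNReal.toReal_add (hEt t ht) h2] at h3
    rw [hint t ht]
    unfold Et
    linarith
  have hAle : ∀ t ∈ D, ∫⁻ x, ENNReal.ofReal (‖UU κ h t x‖ ^ 2)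
      ∂((volume.restrict S).prod (volume.restrict D)) ≤ ENNReal.ofReal T.toReal := fun t ht => by
    rw [hTA]
    exact hle t ht
  have hA1 := (hAB1 (ℂ × ℂ) ((volume.restrict S).prod (volume.restrict D)) (UU κ h) T.toReal
    ENNReal.toReal_nonneg hUm hUh hAle).1
  have hMaj : Pool.Agent.Helper69.QC.Maj (Et F κ h) := maj_congr hA1 hE
  refine ⟨hMaj, hEt, hEle, ?_⟩
  intro r hr hr1 t ht
  have ht1 : t ∈ D := by
    simp only [Metric.mem_ball, dist_zero_right]
    linarith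
  have h0 : (0 : ℂ) ∈ D := by simp
  have h2 := hAB2 (ℂ × ℂ) ((volume.restrict S).prod (volume.restrict D)) (UU κ h) T.toReal
    ENNReal.toReal_nonneg hUm hUh hAle r hr hr1 t ht
  rw [key_prod S hSm hSD (fun x => UU κ h t x - UU κ h 0 x) ((hUm t ht1).sub (hUm 0 h0))
    (fun ζ z => dKern (ft κ h t) z ζ - dKern (ft κ h 0) z ζ)
    (fun ζ hζ z hz => by
      show UU κ h t (ζ, z) - UU κ h 0 (ζ, z) = _
      rw [UU_eq κ h t ζ z hζ hz, UU_eq κ h 0 ζ z hζ hz])] at h2
  refine h2.trans (ENNReal.ofReal_le_ofReal ?_)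
  have hcont := (Pool.Agent.Helper54.QC.cHAR Pool.Agent.Helper6.QC.cMBB _ hMaj).1
  have hsph : ∀ x ∈ Metric.sphere (0 : ℂ) |r|, x ∈ D := by
    intro x hx
    rw [abs_of_pos hr] at hx
    simp only [mem_sphere_iff_norm, sub_zero] at hx
    simp only [Metric.mem_ball, dist_zero_right]
    linarith
  have hci : CircleIntegrable (Et F κ h) 0 r := by
    refine ContinuousOn.circleIntegrable hr.le (hcont.mono fun x hx => ?_)
    exact hsph x (by rwa [abs_of_pos hr])
  have hav : Real.circleAverage (fun t => ∫ x, ‖UU κ h t x‖ ^ 2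
      ∂((volume.restrict S).prod (volume.restrict D))) 0 r =
      T.toReal - Real.circleAverage (Et F κ h) 0 r := by
    have e : Real.circleAverage (fun t => ∫ x, ‖UU κ h t x‖ ^ 2
        ∂((volume.restrict S).prod (volume.restrict D))) 0 r =
        Real.circleAverage (fun t => T.toReal - Et F κ h t) 0 r := by
      refine Real.circleAverage_congr_sphere fun x hx => ?_
      have := hE x (hsph x hx)
      show ∫ y, ‖UU κ h x y‖ ^ 2 ∂((volume.restrict S).prod (volume.restrict D)) =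
        T.toReal - Et F κ h x
      linarith
    rw [e, Real.circleAverage_fun_sub (circleIntegrable_const _ _ _) hci,
      Real.circleAverage_const]
  rw [hav]
  have := hE 0 h0
  linarith

end Pool.Agent.Helper11.QE
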